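import Pool.Agent.Lib.MP_2a35bd_al.Q1Adm

/-!
A negative answer to Q1: a matrix with `d₁ = d₂ = 5` such that, for every choice of a basis of
its column space over `k`, no set of bihomogeneous elements taken among `f`, `g` and the iterated
Sylvester forms starting with `{f, g}` generates the Rees ideal.
-/

namespace Pool.Agent.Results.MP_2a35bd_al.NotSylvester

open MvPolynomial Pool.Agent.Lib.MP_2a35bd_al

/-- The matrix with columns `(x²y³ + y⁵, y⁵, x⁴z + y⁵)` and `(x²z³, y²z³, x⁵ + y⁴z)`. -/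
noncomputable def phi (k : Type*) [Field k] : Matrix (Fin 3) (Fin 2) (R k) :=
  !![X 0 ^ 2 * X 1 ^ 3 + X 1 ^ 5, X 0 ^ 2 * X 2 ^ 3;
    X 1 ^ 5, X 1 ^ 2 * X 2 ^ 3;
    X 0 ^ 4 * X 2 + X 1 ^ 5, X 0 ^ 5 + X 1 ^ 4 * X 2]

theorem result (k : Type*) [Field k] (M : Matrix (Fin 2) (Fin 2) k) (hM : M.det ≠ 0) :
    Admissible (phi k * M.map (C : k → R k)) 5 5 ∧
      ∀ G : Set (S k),
        (∀ h ∈ G, Iter (phi k * M.map (C : k → R k)) h ∧ ∃ p q, IsBihom h p q) →
        Ideal.span G ≠ reesIdeal (phi k * M.map (C : k → R k)) :=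
  ExB.main M hM

end Pool.Agent.Results.MP_2a35bd_al.NotSylvester
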