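import Pool.Agent.Lib.MP_2a35bd_al.ExA3

/-!
A negative answer to Q2: a matrix with monomial entries, `d₁ = 3 = ⌊7/2⌋`, `d₂ = 4 = ⌈7/2⌉`,
whose Rees ideal is minimally generated by `f`, `g` and three iterated Sylvester forms
`h₁, h₂, h₃`, with `h₂` and `h₃` both of bidegree `(2, 3)`.
-/

namespace Pool.Agent.Results.MP_2a35bd_al.SameBidegree

open MvPolynomial Pool.Agent.Lib.MP_2a35bd_al

/-- The matrix with rows `(x³, 0)`, `(x²z, y⁴)`, `(y²z, x⁴)`. -/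
noncomputable def phi (k : Type*) [Field k] : Matrix (Fin 3) (Fin 2) (R k) :=
  !![X 0 ^ 3, 0; X 0 ^ 2 * X 2, X 1 ^ 4; X 1 ^ 2 * X 2, X 0 ^ 4]

theorem result (k : Type*) [Field k] :
    Admissible (phi k) 3 4 ∧
    ∃ h₁ h₂ h₃ : S k,
      IsSylvester ![syzForm (phi k) 0, syzForm (phi k) 1] ![X 0 ^ 2, X 1 ^ 2] h₁ ∧
      IsSylvester ![syzForm (phi k) 0, h₁] ![X 0, X 1 ^ 2 * X 2] h₂ ∧
      IsSylvester ![syzForm (phi k) 0, h₁] ![X 0 ^ 2, X 1 ^ 2] h₃ ∧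
      IsBihom h₁ 3 2 ∧ IsBihom h₂ 2 3 ∧ IsBihom h₃ 2 3 ∧ h₂ ≠ h₃ ∧
      Minimal (fun G : Set (S k) => Ideal.span G = reesIdeal (phi k))
        {syzForm (phi k) 0, syzForm (phi k) 1, h₁, h₂, h₃} := by
  have e : phi k = ExA.phi k := rfl
  rw [e, ExA.syz0, ExA.syz1]
  exact ⟨ExA.admissible, ExA.h1 k, ExA.h2 k, ExA.h3 k, ExA.sylv_h1, ExA.sylv_h2, ExA.sylv_h3,
    ExA.bihom_h1, ExA.bihom_h2, ExA.bihom_h3, ExA.h2_ne_h3, ExA.minimal_gens⟩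

end Pool.Agent.Results.MP_2a35bd_al.SameBidegree
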